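import Pool.Agent.J6H9.PL.Stm
import Pool.Agent.J6H45.CoordRestr.Basic

/-!
# Module PL-INV: limits of diffeomorphisms are closed under inverses
-/

set_option autoImplicit false

open Filter Topology Set
open Pool.Agent.J6H45.CoordRestr
open Pool.Agent.J6H9.PL

namespace Pool.Agent.J6H8.PL

theorem main : S_Inv := by
  intro n h hh
  have hh' : Approximable (Diffeos n 1) h := hh
  show Approximable (Diffeos n 1) h⁻¹
  rw [approximable_iff_ball] at hh' ⊢
  intro R₀ _ ε hε
  obtain ⟨R, hR1, hRR⟩ : ∃ R : ℝ, 1 ≤ R ∧ R₀ ≤ R := ⟨max R₀ 1, le_max_right _ _, le_max_left _ _⟩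
  -- the preimage of a large ball
  have hcomp : IsCompact (h.symm '' Metric.closedBall (0 : E n) (R + 1)) :=
    (isCompact_closedBall _ _).image h.symm.continuous
  obtain ⟨ρ₀, hρ₀⟩ := hcomp.isBounded.subset_closedBall (0 : E n)
  obtain ⟨ρ, hρ0, hρ1⟩ : ∃ ρ : ℝ, 0 < ρ ∧ ρ₀ < ρ :=
    ⟨max ρ₀ 0 + 1, by positivity, by linarith [le_max_left ρ₀ 0]⟩
  have hK : ∀ x, h x ∈ Metric.closedBall (0 : E n) (R + 1) → x ∈ Metric.ball (0 : E n) ρ := by
    intro x hx
    have h1 : x ∈ Metric.closedBall (0 : E n) ρ₀ := hρ₀ ⟨h x, hx, h.symm_apply_apply x⟩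
    rw [Metric.mem_closedBall] at h1
    rw [Metric.mem_ball]
    linarith
  have hunif : UniformContinuousOn h.symm (Metric.closedBall (0 : E n) (R + 1)) :=
    (isCompact_closedBall _ _).uniformContinuousOn_of_continuous h.symm.continuous.continuousOn
  rw [Metric.uniformContinuousOn_iff] at hunif
  obtain ⟨δ₀, hδ₀, hδ⟩ := hunif ε hε
  obtain ⟨g, hg, hgp⟩ := hh' ρ hρ0 (min δ₀ (1 / 2)) (by positivity)
  have hgp1 : ∀ x ∈ Metric.closedBall (0 : E n) ρ, dist (g x) (h x) < 1 / 2 := fun x hx =>
    (hgp x hx).trans_le (min_le_right _ _)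
  refine ⟨g⁻¹, ⟨hg.2, hg.1⟩, ?_⟩
  -- the claim
  have hsub : Metric.closedBall (0 : E n) R ⊆ g '' Metric.ball (0 : E n) ρ := by
    have hU : IsOpen (g '' Metric.ball (0 : E n) ρ) := g.isOpenMap _ Metric.isOpen_ball
    have hV : IsOpen (g '' Metric.closedBall (0 : E n) ρ)ᶜ :=
      (((isCompact_closedBall _ _).image g.continuous).isClosed).isOpen_compl
    have hdis : Disjoint (g '' Metric.ball (0 : E n) ρ) (g '' Metric.closedBall (0 : E n) ρ)ᶜ := by
      rw [Set.disjoint_compl_right_iff_subset]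
      exact Set.image_mono Metric.ball_subset_closedBall
    have hpre : IsPreconnected (Metric.closedBall (0 : E n) R) :=
      (convex_closedBall _ _).isPreconnected
    refine hpre.subset_left_of_subset_union hU hV hdis ?_ ?_
    · intro y hy
      by_cases h1 : g.symm y ∈ Metric.ball (0 : E n) ρ
      · exact Or.inl ⟨g.symm y, h1, g.apply_symm_apply y⟩
      · right
        rintro ⟨x, hx, rfl⟩
        rw [g.symm_apply_apply] at h1
        have h2 : ¬ h x ∈ Metric.closedBall (0 : E n) (R + 1) := fun h3 => h1 (hK x h3)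
        rw [Metric.mem_closedBall, not_le] at h2
        have h3 := hgp1 x hx
        rw [Metric.mem_closedBall] at hy
        have h4 : dist (h x) 0 ≤ dist (h x) (g x) + dist (g x) 0 := dist_triangle _ _ _
        rw [dist_comm (h x) (g x)] at h4
        linarith
    · have hx0 : h.symm 0 ∈ Metric.ball (0 : E n) ρ := by
        apply hK
        rw [h.apply_symm_apply, Metric.mem_closedBall, dist_self]
        linarith
      refine ⟨g (h.symm 0), ?_, ⟨_, hx0, rfl⟩⟩
      have h3 := hgp1 _ (Metric.ball_subset_closedBall hx0)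
      rw [h.apply_symm_apply] at h3
      rw [Metric.mem_closedBall]
      linarith
  intro y hy
  have hyR : y ∈ Metric.closedBall (0 : E n) R := Metric.closedBall_subset_closedBall hRR hy
  obtain ⟨x, hx, rfl⟩ := hsub hyR
  have h1 := hgp x (Metric.ball_subset_closedBall hx)
  have h2 := hgp1 x (Metric.ball_subset_closedBall hx)
  rw [Metric.mem_closedBall] at hyR
  have h3 : h x ∈ Metric.closedBall (0 : E n) (R + 1) := by
    rw [Metric.mem_closedBall]
    have h4 : dist (h x) 0 ≤ dist (h x) (g x) + dist (g x) 0 := dist_triangle _ _ _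
    rw [dist_comm (h x) (g x)] at h4
    linarith
  have h4 : g x ∈ Metric.closedBall (0 : E n) (R + 1) := by
    rw [Metric.mem_closedBall]
    linarith
  have h5 := hδ (h x) h3 (g x) h4 (by
    rw [dist_comm]
    exact h1.trans_le (min_le_left _ _))
  rw [h.symm_apply_apply] at h5
  show dist (g.symm (g x)) (h.symm (g x)) < ε
  rw [g.symm_apply_apply]
  exact h5

end Pool.Agent.J6H8.PL
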